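import Pool.Agent.helper82.LEQ.Spec

set_option autoImplicit false

/-!
# Row D2
-/

namespace LEQ

open scoped BigOperators
open QS (Lef EAb)

theorem D2_sup {G : Type} [Group G] {F D : Subgroup G}
    (h : ∀ f ∈ F, ∀ d ∈ D, f * d = d * f) {x : G} :
    x ∈ F ⊔ D ↔ ∃ f ∈ F, ∃ d ∈ D, x = f * d := by
  constructor
  · intro hx
    let K : Subgroup G :=
      { carrier := {x | ∃ f ∈ F, ∃ d ∈ D, x = f * d}
        one_mem' := ⟨1, F.one_mem, 1, D.one_mem, by rw [one_mul]⟩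
        mul_mem' := by
          rintro _ _ ⟨f, hf, d, hd, rfl⟩ ⟨f', hf', d', hd', rfl⟩
          refine ⟨f * f', F.mul_mem hf hf', d * d', D.mul_mem hd hd', ?_⟩
          calc f * d * (f' * d') = f * (d * f') * d' := by group
            _ = f * (f' * d) * d' := by rw [h f' hf' d hd]
            _ = f * f' * (d * d') := by group
        inv_mem' := by
          rintro _ ⟨f, hf, d, hd, rfl⟩
          refine ⟨f⁻¹, F.inv_mem hf, d⁻¹, D.inv_mem hd, ?_⟩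
          rw [mul_inv_rev]
          exact (h _ (F.inv_mem hf) _ (D.inv_mem hd)).symm }
    have hK : F ⊔ D ≤ K := sup_le (fun f hf => ⟨f, hf, 1, D.one_mem, by rw [mul_one]⟩)
      (fun d hd => ⟨1, F.one_mem, d, hd, by rw [one_mul]⟩)
    exact hK hx
  · rintro ⟨f, hf, d, hd, rfl⟩
    exact Subgroup.mul_mem _ (Subgroup.mem_sup_left hf) (Subgroup.mem_sup_right hd)

theorem D2_mono {G : Type} [Group G] {p : ℕ} {F E : Subgroup G} (h : F ≤ E) (hE : EAb p E) :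
    EAb p F := ⟨fun x hx y hy => hE.1 x (h hx) y (h hy), fun x hx => hE.2 x (h hx)⟩

theorem D2_stbN {G : Type} [Group G] {N : Subgroup G} (hN : N.Normal) (g : G) : Stb g N :=
  fun x => ⟨fun hx => hN.conj_mem x hx g, fun hx => by
    have := hN.conj_mem _ hx g⁻¹
    have e : g⁻¹ * (g * x * g⁻¹) * g⁻¹⁻¹ = x := by group
    rwa [e] at this⟩

theorem D2 (hDEC : DEC_stmt) : D2_stmt := by
  intro G _ _ p N hN g hg
  have hL : Ls p (⊤ : Subgroup G) g = - ∑ E ∈ FS (fun E : Subgroup G => E ≤ ⊤ ∧ EAb p E ∧ Stb g E),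
      ∑ F ∈ FS (fun F : Subgroup G => F ≤ E ∧ F ⊓ N = ⊥ ∧ F ⊔ (E ⊓ N) = E ∧
        ∀ x ∈ F, g * x = x * g), Mb 1 F * Mb g (E ⊓ N) := by
    unfold Ls
    refine congrArg Neg.neg (Finset.sum_congr rfl fun E hE => ?_)
    rw [mem_FS] at hE
    exact hDEC G p N hN g hg E hE.2.1 hE.2.2
  have hR : ∑ F ∈ FS (fun F : Subgroup G => EAb p F ∧ F ⊓ N = ⊥ ∧
      ∀ x ∈ F, g * x = x * g), Mb 1 F * Ls p (N ⊓ Cn F) g =
      - ∑ F ∈ FS (fun F : Subgroup G => EAb p F ∧ F ⊓ N = ⊥ ∧ ∀ x ∈ F, g * x = x * g),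
        ∑ D ∈ FS (fun D : Subgroup G => D ≤ N ⊓ Cn F ∧ EAb p D ∧ Stb g D), Mb 1 F * Mb g D := by
    rw [← Finset.sum_neg_distrib]
    refine Finset.sum_congr rfl fun F hF => ?_
    unfold Ls
    rw [mul_neg, Finset.mul_sum]
  rw [hL, hR]
  refine congrArg Neg.neg ?_
  rw [Finset.sum_sigma', Finset.sum_sigma']
  have key : ∀ F D : Subgroup G, EAb p F → F ⊓ N = ⊥ → (∀ x ∈ F, g * x = x * g) →
      D ≤ N ⊓ Cn F → EAb p D → Stb g D →
      (∀ f ∈ F, ∀ d ∈ D, f * d = d * f) ∧ (F ⊔ D) ⊓ N = D ∧ EAb p (F ⊔ D) ∧ Stb g (F ⊔ D) := by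
    intro F D hF hFN hFg hD hDp hDg
    have hc : ∀ f ∈ F, ∀ d ∈ D, f * d = d * f := by
      intro f hf d hd
      have := (hD hd).2
      exact (Subgroup.mem_centralizer_iff.1 this) f hf
    have hDN : ∀ d ∈ D, d ∈ N := fun d hd => (hD hd).1
    refine ⟨hc, ?_, ⟨?_, ?_⟩, ?_⟩
    · apply le_antisymm
      · rintro x ⟨hx, hxN⟩
        obtain ⟨f, hf, d, hd, rfl⟩ := (D2_sup hc).1 hx
        have hfN : f ∈ N := by
          have := N.mul_mem hxN (N.inv_mem (hDN d hd))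
          rwa [mul_inv_cancel_right] at this
        have hf1 : f ∈ (⊥ : Subgroup G) := by
          rw [← hFN]
          exact ⟨hf, hfN⟩
        rw [Subgroup.mem_bot] at hf1
        rw [hf1, one_mul]
        exact hd
      · intro d hd
        exact ⟨Subgroup.mem_sup_right hd, hDN d hd⟩
    · intro x hx y hy
      obtain ⟨f, hf, d, hd, rfl⟩ := (D2_sup hc).1 hx
      obtain ⟨f', hf', d', hd', rfl⟩ := (D2_sup hc).1 hy
      calc f * d * (f' * d') = f * (d * f') * d' := by group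
        _ = f * (f' * d) * d' := by rw [hc f' hf' d hd]
        _ = (f * f') * (d * d') := by group
        _ = (f' * f) * (d' * d) := by rw [hF.1 f hf f' hf', hDp.1 d hd d' hd']
        _ = f' * (f * d') * d := by group
        _ = f' * (d' * f) * d := by rw [hc f hf d' hd']
        _ = f' * d' * (f * d) := by group
    · intro x hx
      obtain ⟨f, hf, d, hd, rfl⟩ := (D2_sup hc).1 hx
      have hcm : Commute f d := hc f hf d hd
      rw [hcm.mul_pow, hF.2 f hf, hDp.2 d hd, one_mul]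
    · intro x
      constructor
      · intro hx
        obtain ⟨f, hf, d, hd, rfl⟩ := (D2_sup hc).1 hx
        refine (D2_sup hc).2 ⟨f, hf, g * d * g⁻¹, (hDg d).1 hd, ?_⟩
        calc g * (f * d) * g⁻¹ = (g * f) * d * g⁻¹ := by group
          _ = (f * g) * d * g⁻¹ := by rw [hFg f hf]
          _ = f * (g * d * g⁻¹) := by group
      · intro hx
        obtain ⟨f, hf, d, hd, hfd⟩ := (D2_sup hc).1 hx
        refine (D2_sup hc).2 ⟨f, hf, g⁻¹ * d * g, ?_, ?_⟩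
        · rw [hDg (g⁻¹ * d * g)]
          have e : g * (g⁻¹ * d * g) * g⁻¹ = d := by group
          rw [e]
          exact hd
        · calc x = g⁻¹ * (g * x * g⁻¹) * g := by group
            _ = g⁻¹ * (f * d) * g := by rw [hfd]
            _ = g⁻¹ * (f * g) * (g⁻¹ * d * g) := by group
            _ = g⁻¹ * (g * f) * (g⁻¹ * d * g) := by rw [hFg f hf]
            _ = f * (g⁻¹ * d * g) := by group
  refine Finset.sum_bij' (fun a _ => ⟨a.2, a.1 ⊓ N⟩) (fun b _ => ⟨b.1 ⊔ b.2, b.1⟩)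
    ?_ ?_ ?_ ?_ ?_
  · rintro ⟨E, F⟩ ha
    rw [Finset.mem_sigma, mem_FS, mem_FS] at ha
    obtain ⟨⟨-, hE, hEg⟩, hFE, hFN, hsup, hFg⟩ := ha
    rw [Finset.mem_sigma, mem_FS, mem_FS]
    refine ⟨⟨D2_mono hFE hE, hFN, hFg⟩, ?_, D2_mono inf_le_left hE, ?_⟩
    · rintro d ⟨hdE, hdN⟩
      refine ⟨hdN, Subgroup.mem_centralizer_iff.2 fun f hf => ?_⟩
      exact hE.1 f (hFE hf) d hdE
    · intro x
      rw [Subgroup.mem_inf, Subgroup.mem_inf, hEg x, D2_stbN hN g x]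
  · rintro ⟨F, D⟩ hb
    rw [Finset.mem_sigma, mem_FS, mem_FS] at hb
    obtain ⟨⟨hF, hFN, hFg⟩, hD, hDp, hDg⟩ := hb
    obtain ⟨-, h2, h3, h4⟩ := key F D hF hFN hFg hD hDp hDg
    rw [Finset.mem_sigma, mem_FS, mem_FS]
    refine ⟨⟨le_top, h3, h4⟩, le_sup_left, hFN, ?_, hFg⟩
    show F ⊔ ((F ⊔ D) ⊓ N) = F ⊔ D
    rw [h2]
  · rintro ⟨E, F⟩ ha
    rw [Finset.mem_sigma, mem_FS, mem_FS] at ha
    obtain ⟨⟨-, hE, hEg⟩, hFE, hFN, hsup, hFg⟩ := ha
    show (⟨F ⊔ (E ⊓ N), F⟩ : Σ _ : Subgroup G, Subgroup G) = ⟨E, F⟩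
    rw [hsup]
  · rintro ⟨F, D⟩ hb
    rw [Finset.mem_sigma, mem_FS, mem_FS] at hb
    obtain ⟨⟨hF, hFN, hFg⟩, hD, hDp, hDg⟩ := hb
    obtain ⟨-, h2, h3, h4⟩ := key F D hF hFN hFg hD hDp hDg
    show (⟨F, (F ⊔ D) ⊓ N⟩ : Σ _ : Subgroup G, Subgroup G) = ⟨F, D⟩
    rw [h2]
  · rintro ⟨E, F⟩ ha
    rfl

end LEQ
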